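import Pool.Agent.Lib_helper85.FA.A4

/-! # Fixed angle inverse scattering for the fractional Schrödinger equation: exceptional
parameters

Two different smooth compactly supported complex potentials `V`, `V'` in dimension `d ≥ 2` are
told apart by the scattering amplitudes at one fixed `xhat`, for all large `k` and all incident
directions near `xhat`, up to finitely many exponents `s` away from `1/2`; at each exponent
`s > 1/2`, rational or not, the potentials `c V` and `c V'` are told apart up to finitely many
coupling constants `c`. -/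

open MeasureTheory Filter Complex Set Topology
open scoped Real SchwartzMap ContDiff

namespace Pool.Agent.Results.MP_254192_an.ExceptionalParameters

open FracScat

/-- Finitely many exceptional coupling constants and exponents for a pair of potentials. -/
theorem result (d : ℕ) (hd : 2 ≤ d) (xhat : EuclideanSpace ℝ (Fin d)) (hx : ‖xhat‖ = 1)
    (V V' : EuclideanSpace ℝ (Fin d) → ℂ) (hV : ContDiff ℝ ∞ V) (hVc : HasCompactSupport V)
    (hV' : ContDiff ℝ ∞ V') (hVc' : HasCompactSupport V') (hne : V ≠ V') :
    (∀ s : ℝ, 1 / 2 < s →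
      {c : ℂ | c ≠ 0 ∧ SameData s xhat (fun a => c * V a) (fun a => c * V' a)}.Finite) ∧
    (∀ c : ℂ, c ≠ 0 → ∀ ε : ℝ, 0 < ε →
      {s : ℝ | 1 / 2 + ε ≤ s ∧
        SameData s xhat (fun a => c * V a) (fun a => c * V' a)}.Finite) := by
  have hdim : 2 ≤ Module.finrank ℝ (EuclideanSpace ℝ (Fin d)) := by simpa using hd
  set W : 𝓢(EuclideanSpace ℝ (Fin d), ℂ) := hVc.toSchwartzMap hV with hW
  set W' : 𝓢(EuclideanSpace ℝ (Fin d), ℂ) := hVc'.toSchwartzMap hV' with hW'
  have e₁ : (W : EuclideanSpace ℝ (Fin d) → ℂ) = V := rfl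
  have e₂ : (W' : EuclideanSpace ℝ (Fin d) → ℂ) = V' := rfl
  have hWc : HasCompactSupport W := hVc
  have hWc' : HasCompactSupport W' := hVc'
  have hWne : W ≠ W' := by
    intro h
    apply hne
    rw [← e₁, ← e₂, h]
  refine ⟨fun s hs => ?_, fun c hc ε hε => ?_⟩
  · obtain ⟨r, v, x, y, hvc, hvlin, hxW, hyW⟩ := exists_family hWc hWc'
    obtain ⟨p, _, hp, hE⟩ := family_poly hs hx hdim hvc hvlin
    have hscale : ∀ (c : ℂ) (x : Fin r → ℂ) (U : 𝓢(EuclideanSpace ℝ (Fin d), ℂ)), fam v x = U →
        (fam v (fun i => c * x i) : EuclideanSpace ℝ (Fin d) → ℂ) = fun a => c * U a := by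
      intro c x U hU
      funext a
      rw [fam_apply, ← hU, fam_apply, Finset.mul_sum]
      exact Finset.sum_congr rfl fun i _ => mul_assoc _ _ _
    have hxy : x ≠ y := by
      intro h
      apply hWne
      rw [← hxW, ← hyW, h]
    refine (family_pair hp hE hxy).subset fun c hc => ?_
    refine ⟨hc.1, ?_⟩
    rw [hscale c x W hxW, hscale c y W' hyW]
    exact hc.2
  · have h1 : HasCompactSupport (c • W : 𝓢(EuclideanSpace ℝ (Fin d), ℂ)) :=
      hWc.mul_left (f := fun _ => c)
    have h2 : HasCompactSupport (c • W' : 𝓢(EuclideanSpace ℝ (Fin d), ℂ)) :=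
      hWc'.mul_left (f := fun _ => c)
    exact finite_exponents (V := c • W) (V' := c • W') hx hdim h1 h2
      (fun h => hWne (smul_right_injective _ hc h)) hε

end Pool.Agent.Results.MP_254192_an.ExceptionalParameters
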