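import Pool.Agent.Lib_helper85.FA.A5

/-! # Fixed angle inverse scattering for the fractional Schrödinger equation: finite families

For every real `s > 1/2`, rational or not, and a finite-dimensional family of smooth compactly
supported complex potentials in dimension `d ≥ 2`: the scattering amplitudes at one fixed `xhat`,
for all large `k` and all incident directions near `xhat`, determine a polynomial map of the
parameters whose linear part is the identity. -/

open MeasureTheory Filter Complex Set Topology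
open scoped Real SchwartzMap ContDiff

namespace Pool.Agent.Results.MP_254192_an.FiniteFamilies

open FracScat

/-- Fixed angle data on finite-dimensional families, all exponents `s > 1/2`. -/
theorem result (d : ℕ) (hd : 2 ≤ d) (s : ℝ) (hs : 1 / 2 < s)
    (xhat : EuclideanSpace ℝ (Fin d)) (hx : ‖xhat‖ = 1)
    (r : ℕ) (V : Fin r → EuclideanSpace ℝ (Fin d) → ℂ)
    (hV : ∀ i, ContDiff ℝ ∞ (V i)) (hVc : ∀ i, HasCompactSupport (V i))
    (hlin : LinearIndependent ℂ V) :
    ∃ (p : Fin r → MvPolynomial (Fin r) ℂ) (D G : MvPolynomial (Fin r) ℂ),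
      (∀ i, MvPolynomial.coeff 0 (p i) = 0) ∧
      (∀ i j, MvPolynomial.coeff (Finsupp.single j 1) (p i) = if j = i then 1 else 0) ∧
      (∀ x y : Fin r → ℂ,
        SameData s xhat (fun a => ∑ i, x i * V i a) (fun a => ∑ i, y i * V i a) →
          ∀ i, MvPolynomial.eval x (p i) = MvPolynomial.eval y (p i)) ∧
      MvPolynomial.eval 0 D = 1 ∧
      (∀ z, MvPolynomial.eval z D ≠ 0 → ∃ ε : ℝ, 0 < ε ∧ ∀ x y : Fin r → ℂ,
        (∀ i, ‖x i - z i‖ < ε) → (∀ i, ‖y i - z i‖ < ε) →
        SameData s xhat (fun a => ∑ i, x i * V i a) (fun a => ∑ i, y i * V i a) → x = y) ∧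
      G ≠ 0 ∧
      (∀ y, MvPolynomial.eval y G ≠ 0 →
        {x : Fin r → ℂ | SameData s xhat (fun a => ∑ i, x i * V i a)
          (fun a => ∑ i, y i * V i a)}.Finite) := by
  have hdim : 2 ≤ Module.finrank ℝ (EuclideanSpace ℝ (Fin d)) := by simpa using hd
  set W : Fin r → 𝓢(EuclideanSpace ℝ (Fin d), ℂ) := fun i => (hVc i).toSchwartzMap (hV i) with hW
  have hWc : ∀ i, HasCompactSupport (W i) := fun i => hVc i
  have hWlin : LinearIndependent ℂ W := by
    let F : 𝓢(EuclideanSpace ℝ (Fin d), ℂ) →ₗ[ℂ] (EuclideanSpace ℝ (Fin d) → ℂ) :=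
      { toFun := fun f => ⇑f
        map_add' := fun _ _ => rfl
        map_smul' := fun _ _ => rfl }
    exact LinearIndependent.of_comp F hlin
  have hfam : ∀ x : Fin r → ℂ,
      (fam W x : EuclideanSpace ℝ (Fin d) → ℂ) = fun a => ∑ i, x i * V i a := fun x =>
    funext fun a => fam_apply W x a
  obtain ⟨p, hp0, hp, hE⟩ := family_poly hs hx hdim hWc hWlin
  have hE' : ∀ x y : Fin r → ℂ,
      SameData s xhat (fun a => ∑ i, x i * V i a) (fun a => ∑ i, y i * V i a) →
        ∀ i, MvPolynomial.eval x (p i) = MvPolynomial.eval y (p i) := by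
    intro x y hxy
    apply hE x y
    rw [hfam, hfam]
    exact hxy
  obtain ⟨D, hD0, hD⟩ := family_generic hp
  obtain ⟨G, hG0, hG⟩ := family_fibre hp
  refine ⟨p, D, G, hp0, hp, hE', hD0, fun z hz => ?_, hG0, fun y hy => ?_⟩
  · obtain ⟨ε, hε, h1⟩ := hD z hz
    exact ⟨ε, hε, fun x y hxz hyz hxy => h1 x y hxz hyz (hE' x y hxy)⟩
  · exact (hG y hy).subset fun x hxy => hE' x y hxy

end Pool.Agent.Results.MP_254192_an.FiniteFamilies
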