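import Pool.Agent.Lib_helper85.FA.A8

/-! # Fixed angle inverse scattering for the fractional Schrödinger equation: line moments

For every real `s > 1/2`, rational or not, and smooth compactly supported potentials in dimension
`d ≥ 2`: the scattering amplitudes at one fixed `xhat`, for all large `k` and all incident
directions near `xhat`, determine the moments below the first collision of the Born orders along
all lines parallel to `xhat`.  On such a line the difference of two real potentials with the same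
data vanishes or changes sign at least that many times. -/

open MeasureTheory Filter Complex Set Topology
open scoped Real SchwartzMap ContDiff RealInnerProductSpace

namespace Pool.Agent.Results.MP_254192_an.LineMoments

open FracScat

/-- Equal data at one angle: equal moments along the lines, below the first collision. -/
theorem result (d : ℕ) (hd : 2 ≤ d) (s : ℝ) (hs : 1 / 2 < s)
    (xhat : EuclideanSpace ℝ (Fin d)) (hx : ‖xhat‖ = 1)
    (m : ℕ) (hm : ∀ n a : ℕ, n ≠ 0 → (n : ℝ) * (2 * s - 1) = a → m ≤ a) :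
    (∀ V V' : EuclideanSpace ℝ (Fin d) → ℂ,
      ContDiff ℝ ∞ V → HasCompactSupport V → ContDiff ℝ ∞ V' → HasCompactSupport V' →
      SameData s xhat V V' → ∀ j : ℕ, j < m → ∀ x, ⟪xhat, x⟫ = 0 →
        ∫ t : ℝ, (t : ℂ) ^ j * V (x + t • xhat) = ∫ t : ℝ, (t : ℂ) ^ j * V' (x + t • xhat)) ∧
    (∀ V V' : EuclideanSpace ℝ (Fin d) → ℝ,
      ContDiff ℝ ∞ V → HasCompactSupport V → ContDiff ℝ ∞ V' → HasCompactSupport V' →
      SameData s xhat (fun x => (V x : ℂ)) (fun x => (V' x : ℂ)) → ∀ x, ⟪xhat, x⟫ = 0 →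
      ∀ Q : Polynomial ℝ, Q ≠ 0 → Q.natDegree < m →
        (∀ t : ℝ, 0 ≤ Q.eval t * (V (x + t • xhat) - V' (x + t • xhat))) →
        ∀ t : ℝ, V (x + t • xhat) = V' (x + t • xhat)) := by
  have hdim : 2 ≤ Module.finrank ℝ (EuclideanSpace ℝ (Fin d)) := by simpa using hd
  have hmom : ∀ V V' : EuclideanSpace ℝ (Fin d) → ℂ,
      ContDiff ℝ ∞ V → HasCompactSupport V → ContDiff ℝ ∞ V' → HasCompactSupport V' →
      SameData s xhat V V' → ∀ j : ℕ, j < m → ∀ x, ⟪xhat, x⟫ = 0 →
        ∫ t : ℝ, (t : ℂ) ^ j * V (x + t • xhat) = ∫ t : ℝ, (t : ℂ) ^ j * V' (x + t • xhat) := by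
    intro V V' hV hVc hV' hVc' hsame j hj x hxx
    exact same_moments (V := hVc.toSchwartzMap hV) (V' := hVc'.toSchwartzMap hV') hs hx hdim
      hVc hVc' hsame (fun n a hn h => lt_of_lt_of_le hj (hm n a hn h)) hxx
  refine ⟨hmom, ?_⟩
  intro V V' hV hVc hV' hVc' hsame x hxx Q hQ0 hQm hQ t
  have hline : ∀ (U : EuclideanSpace ℝ (Fin d) → ℝ), Continuous U → HasCompactSupport U →
      Continuous (fun t : ℝ => U (x + t • xhat)) ∧
        HasCompactSupport (fun t : ℝ => U (x + t • xhat)) := by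
    intro U hU hUc
    refine ⟨by fun_prop, ?_⟩
    obtain ⟨R, hR⟩ := hUc.isCompact.isBounded.subset_closedBall 0
    refine HasCompactSupport.intro (K := Icc (-(|R| + ‖x‖)) (|R| + ‖x‖)) isCompact_Icc
      fun t ht => ?_
    apply image_eq_zero_of_notMem_tsupport
    intro hmem
    apply ht
    have h1 := hR hmem
    rw [mem_closedBall_zero_iff] at h1
    rw [mem_Icc, ← abs_le]
    have h2 : |t| = ‖t • xhat‖ := by rw [norm_smul, hx, mul_one, Real.norm_eq_abs]
    have h3 : t • xhat = (x + t • xhat) - x := by abel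
    rw [h2, h3]
    exact (norm_sub_le _ _).trans (add_le_add (h1.trans (le_abs_self R)) le_rfl)
  have hcC : ∀ U : EuclideanSpace ℝ (Fin d) → ℝ, ContDiff ℝ ∞ U → HasCompactSupport U →
      ContDiff ℝ ∞ (fun x => (U x : ℂ)) ∧ HasCompactSupport (fun x => (U x : ℂ)) :=
    fun U hU hUc => ⟨Complex.ofRealCLM.contDiff.comp hU,
      hUc.comp_left (g := fun y : ℝ => (y : ℂ)) (by simp)⟩
  obtain ⟨c1, k1⟩ := hline V hV.continuous hVc
  obtain ⟨c2, k2⟩ := hline V' hV'.continuous hVc'
  refine sub_eq_zero.mp (sign_moments (w := fun t => V (x + t • xhat) - V' (x + t • xhat))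
    (c1.sub c2) (k1.sub k2) (m := m) (fun j hj => ?_) hQ0 hQm hQ t)
  have h1 := hmom _ _ (hcC V hV hVc).1 (hcC V hV hVc).2 (hcC V' hV' hVc').1
    (hcC V' hV' hVc').2 hsame j hj x hxx
  have h2 : ∀ U : EuclideanSpace ℝ (Fin d) → ℝ,
      ∫ t : ℝ, (t : ℂ) ^ j * (U (x + t • xhat) : ℂ)
        = ((∫ t : ℝ, t ^ j * U (x + t • xhat) : ℝ) : ℂ) := by
    intro U
    rw [← integral_complex_ofReal]
    push_cast
    rfl
  rw [h2, h2] at h1
  have h3 : ∫ t : ℝ, t ^ j * V (x + t • xhat) = ∫ t : ℝ, t ^ j * V' (x + t • xhat) := by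
    exact_mod_cast h1
  simp only [mul_sub]
  rw [integral_sub, h3, sub_self]
  · exact ((continuous_id.pow j).mul c1).integrable_of_hasCompactSupport k1.mul_left
  · exact ((continuous_id.pow j).mul c2).integrable_of_hasCompactSupport k2.mul_left

end Pool.Agent.Results.MP_254192_an.LineMoments
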