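import Pool.Agent.Lib_helper32.FSUniq

/-! # Fixed angle inverse scattering for the fractional Schrödinger equation

For irrational `s > 1/2` and smooth compactly supported complex potentials in dimension `d ≥ 2`
(in particular for `d ≥ 3`, `d/(d+1) < s < d/2`), the scattering amplitudes at one fixed `xhat`,
for all large `k` and all incident directions `θ` near `xhat`, determine the potential. -/

open MeasureTheory Filter Complex Set Topology
open scoped Real SchwartzMap ContDiff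

namespace Pool.Agent.Results.MP_254192_an.SmoothIrrational

open FracScat

/-- Fixed angle uniqueness for smooth potentials and irrational exponents. -/
theorem result (d : ℕ) (hd : 2 ≤ d) (s : ℝ) (hs : 1 / 2 < s) (hirr : Irrational s)
    (V₁ V₂ : EuclideanSpace ℝ (Fin d) → ℂ) (hV₁ : ContDiff ℝ ∞ V₁) (hV₂ : ContDiff ℝ ∞ V₂)
    (hV₁c : HasCompactSupport V₁) (hV₂c : HasCompactSupport V₂)
    (xhat : EuclideanSpace ℝ (Fin d)) (hx : ‖xhat‖ = 1) (k₀ δ : ℝ) (hδ : 0 < δ)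
    (H : ∀ k : ℝ, k₀ < k → ∀ θ : EuclideanSpace ℝ (Fin d), ‖θ‖ = 1 → ‖θ - xhat‖ < δ →
      ∀ u₁ u₂ : EuclideanSpace ℝ (Fin d) → ℂ,
        IsTotalField s k V₁ θ u₁ → IsTotalField s k V₂ θ u₂ →
          amplitude k V₁ xhat u₁ = amplitude k V₂ xhat u₂) :
    V₁ = V₂ := by
  set W₁ : 𝓢(EuclideanSpace ℝ (Fin d), ℂ) := hV₁c.toSchwartzMap hV₁ with hW₁
  set W₂ : 𝓢(EuclideanSpace ℝ (Fin d), ℂ) := hV₂c.toSchwartzMap hV₂ with hW₂
  have e₁ : (W₁ : EuclideanSpace ℝ (Fin d) → ℂ) = V₁ := rfl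
  have e₂ : (W₂ : EuclideanSpace ℝ (Fin d) → ℂ) = V₂ := rfl
  have c₁ : HasCompactSupport W₁ := hV₁c
  have c₂ : HasCompactSupport W₂ := hV₂c
  obtain ⟨a₁, ha₁, _, hex₁⟩ := exists_totalField hs hx c₁
  obtain ⟨a₂, ha₂, _, hex₂⟩ := exists_totalField hs hx c₂
  set K : ℝ := max k₀ (max (2 * π / a₁) (2 * π / a₂)) with hK
  have hex : ∀ (W : 𝓢(EuclideanSpace ℝ (Fin d), ℂ)) (a : ℝ), 0 < a → 2 * π / a ≤ K →
      (∀ h, 0 < h → h ≤ a → ∀ θ : EuclideanSpace ℝ (Fin d),
        ∃ u : EuclideanSpace ℝ (Fin d) → ℂ, IsTotalField s (2 * π / h) W θ u) →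
      ∀ (k : ℝ) (θ : EuclideanSpace ℝ (Fin d)), ∃ u : EuclideanSpace ℝ (Fin d) → ℂ,
        K < k → IsTotalField s k W θ u := by
    intro W a ha hle hW k θ
    by_cases hk : K < k
    · have h2π : 0 < 2 * π := by positivity
      have hak : 2 * π / a < k := hle.trans_lt hk
      have hkpos : 0 < k := lt_trans (by positivity) hak
      have hh : 2 * π / k ≤ a := by
        rw [div_le_iff₀ hkpos]
        rw [div_lt_iff₀ ha] at hak
        linarith
      obtain ⟨u, hu⟩ := hW (2 * π / k) (by positivity) hh θ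
      refine ⟨u, fun _ => ?_⟩
      have e3 : 2 * π / (2 * π / k) = k := by field_simp
      rwa [e3] at hu
    · exact ⟨0, fun h => absurd h hk⟩
  choose u₁ hu₁ using hex W₁ a₁ ha₁ ((le_max_left _ _).trans (le_max_right _ _)) hex₁
  choose u₂ hu₂ using hex W₂ a₂ ha₂ ((le_max_right _ _).trans (le_max_right _ _)) hex₂
  have hfin : W₁ = W₂ := core hs hirr hx (by simpa using hd) c₁ c₂ (k₀ := K) hδ u₁ u₂
    (fun k hk θ _ _ => hu₁ k θ hk) (fun k hk θ _ _ => hu₂ k θ hk)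
    (fun k hk θ hθ hθ' => H k ((le_max_left _ _).trans_lt hk) θ hθ hθ' _ _ (hu₁ k θ hk) (hu₂ k θ hk))
  rw [← e₁, ← e₂, hfin]

end Pool.Agent.Results.MP_254192_an.SmoothIrrational
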